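import Pool.Agent.P.MP_8220a0_an.Main
import Pool.Agent.P.MP_8220a0_an.Bound

/-!
Kane's bound does not give the order of magnitude of the number of nodes for every weight that is
nonzero almost everywhere.
-/

namespace Pool.Agent.Results.MP_8220a0_an.KaneNotSharp

open Real MeasureTheory

/-- Real trigonometric polynomials of degree at most `n`. -/
def IsTrig (n : ℕ) (p : ℝ → ℝ) : Prop :=
  ∃ a b : ℕ → ℝ, p = fun θ => ∑ j ∈ Finset.range (n + 1), (a j * cos (j * θ) + b j * sin (j * θ))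

/-- `2π`-periodic weight functions. -/
def IsWeight (W : ℝ → ℝ) : Prop :=
  (∀ θ, 0 ≤ W θ) ∧ Function.Periodic W (2 * π) ∧ Measurable W ∧
    IntervalIntegrable W volume (-π) π ∧ 0 < ∫ θ in (-π)..π, W θ

/-- There is a Chebyshev-type trigonometric quadrature of degree `n` with exactly `N` nodes. -/
def HasQuad (W : ℝ → ℝ) (n N : ℕ) : Prop :=
  ∃ (θ : Fin N → ℝ) (lam : ℝ), Monotone θ ∧
    ∀ p, IsTrig n p → ∫ x in (-π)..π, p x * W x = lam * ∑ i, p (θ i)

/-- The least `N₀` such that a quadrature with `N` nodes exists for every `N ≥ N₀`. -/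
noncomputable def Nbar (W : ℝ → ℝ) (n : ℕ) : ℕ := sInf {N₀ | ∀ N, N₀ ≤ N → HasQuad W n N}

/-- The quotients whose supremum appears in Kane's quantity. -/
def ratios (W : ℝ → ℝ) (n : ℕ) : Set ℝ :=
  {r | ∃ p, IsTrig n p ∧ (∀ x, 0 ≤ p x) ∧ p ≠ 0 ∧
    r = (∫ x in (-π)..π, |deriv p x|) / ∫ x in (-π)..π, p x * W x}

/-- Kane's quantity `K_W(n)`. -/
noncomputable def kane (W : ℝ → ℝ) (n : ℕ) : ℕ :=
  ⌊(∫ θ in (-π)..π, W θ) / 2 * sSup (ratios W n)⌋₊ + 1

open Pool.Agent.P.MP_8220a0_an Polynomial Finset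

lemma bdd {W : ℝ → ℝ} (hW : IsWeight W) (hae : ∀ᵐ θ, W θ ≠ 0) (n : ℕ) :
    BddAbove (ratios W n) := by
  obtain ⟨C, hC0, hC⟩ := exists_ratio_bound n hW.2.2.2.1 hW.1 hae
  refine ⟨C, ?_⟩
  rintro r ⟨p, ⟨a, b, hp⟩, h1, -, rfl⟩
  have e : p = tpL n (fun j => a j, fun j => b j) := by
    rw [hp, tpL_apply]
    ext θ
    exact (Fin.sum_univ_eq_sum_range
      (fun j => a j * cos (j * θ) + b j * sin (j * θ)) (n + 1)).symm
  refine div_le_of_le_mul₀ (intervalIntegral.integral_nonneg (by linarith [pi_pos])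
    fun θ _ => mul_nonneg (h1 θ) (hW.1 θ)) hC0 ?_
  rw [e] at h1 ⊢
  exact hC _ h1

lemma total {a : ℕ → ℝ} (h : Adm a) : ∫ θ in (-π)..π, Wt a θ = 2 * π * ∑' j, a j := by
  have := mu_apply h 1
  simpa [mu_one h] using this

lemma isWeight {a : ℕ → ℝ} (h : Adm a) : IsWeight (Wt a) :=
  ⟨Wt_nonneg h, Wt_periodic a, Wt_measurable h, Wt_intervalIntegrable h, by
    rw [total h]
    have := h.one_le
    have := pi_pos
    positivity⟩

lemma hasQuad_of {a : ℕ → ℝ} (h : Adm a) {n N : ℕ} (hN : 0 < N) (Θ : Multiset ℝ)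
    (hc : Multiset.card Θ = N)
    (h1 : ∀ q : ℝ[X], q.natDegree ≤ n →
      (Θ.map fun θ => q.eval (cos θ)).sum = N / (∑' j, a j) * mu h q)
    (h2 : ∀ t : ℝ, (Θ.map fun θ => sin (t * θ)).sum = 0) : HasQuad (Wt a) n N := by
  obtain ⟨θ₀, hθ₀⟩ : ∃ θ₀ : Fin N → ℝ, Θ = univ.val.map θ₀ := by
    induction Θ using Quotient.inductionOn with
    | _ l =>
      have hl : l.length = N := hc
      subst hl
      exact ⟨l.get, by simp⟩
  have hs : ∀ f : ℝ → ℝ, ∑ i, f ((θ₀ ∘ Tuple.sort θ₀) i) = (Θ.map f).sum := fun f => by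
    rw [hθ₀, Multiset.map_map]
    exact Equiv.sum_comp (Tuple.sort θ₀) fun i => f (θ₀ i)
  refine ⟨θ₀ ∘ Tuple.sort θ₀, 2 * π * (∑' j, a j) / N, Tuple.monotone_sort θ₀, ?_⟩
  rintro p ⟨c, d, rfl⟩
  rw [hs fun θ => ∑ j ∈ range (n + 1), (c j * cos (j * θ) + d j * sin (j * θ)),
    Multiset.sum_map_sum, mul_sum]
  simp only [sum_mul]
  have hI := Wt_intervalIntegrable h
  rw [intervalIntegral.integral_finsetSum fun j _ => hI.continuousOn_mul (by fun_prop)]
  refine sum_congr rfl fun j hj => ?_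
  rw [mem_range] at hj
  have e1 := h1 (Chebyshev.T ℝ (j : ℤ)) (by rw [Chebyshev.natDegree_T]; simp; omega)
  have e2 := mu_apply h (Chebyshev.T ℝ (j : ℤ))
  simp only [Chebyshev.T_real_cos, Int.cast_natCast] at e1 e2
  rw [Multiset.sum_map_add, Multiset.sum_map_mul_left, Multiset.sum_map_mul_left, e1, h2]
  simp only [add_mul, mul_assoc]
  rw [intervalIntegral.integral_add ((hI.continuousOn_mul (by fun_prop)).const_mul _)
    ((hI.continuousOn_mul (by fun_prop)).const_mul _), intervalIntegral.integral_const_mul,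
    intervalIntegral.integral_const_mul, e2, integral_odd]
  have hA := h.one_le
  have hNr : (0 : ℝ) < N := by exact_mod_cast hN
  field_simp
  ring

lemma kane_lower {a : ℕ → ℝ} (h : Adm a) (k n : ℕ) (hn : 1 ≤ n) (ha : 2 * a (k + 1) ≤ rr k ^ n) :
    1 < 4 * rr k ^ n * kane (Wt a) n := by
  set p : ℝ → ℝ := fun θ => (tq n).eval (cos θ) with hp
  have hp0 : ∀ θ, 0 ≤ p θ := fun θ => by
    simp only [hp, tq_eval]
    exact pow_nonneg (by linarith [cos_le_one θ]) n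
  have hpπ : p π = 1 := by simp [hp, tq_eval]
  have hpz : p 0 = 0 := by simp [hp, tq_eval, show n ≠ 0 by omega]
  have hne : p ≠ 0 := fun e => by
    rw [e] at hpπ
    simp at hpπ
  have htrig : IsTrig n p := by
    obtain ⟨c, hc⟩ := exists_cheb n (tq n) (tq_natDegree n)
    refine ⟨c, fun _ => 0, ?_⟩
    ext θ
    simp only [hp]
    rw [hc]
    simp [eval_finsetSum, Chebyshev.T_real_cos]
  have hcd : ContDiff ℝ 1 p := by
    have : p = fun θ => ((1 - cos θ) / 2) ^ n := by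
      ext θ
      simp only [hp, tq_eval]
    rw [this]
    fun_prop
  have hdc : Continuous (deriv p) := hcd.continuous_deriv le_rfl
  have hnum : 1 ≤ ∫ x in (-π)..π, |deriv p x| := by
    have h1 : ∫ x in (0 : ℝ)..π, deriv p x = p π - p 0 :=
      intervalIntegral.integral_deriv_eq_sub (fun x _ => hcd.differentiable one_ne_zero x)
        (hdc.intervalIntegrable _ _)
    rw [hpπ, hpz, sub_zero] at h1
    have h2 := intervalIntegral.abs_integral_le_integral_abs (f := deriv p) (μ := volume)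
      pi_pos.le
    have h3 := intervalIntegral.integral_mono_interval (f := fun x => |deriv p x|) (μ := volume)
      (show -π ≤ 0 by linarith [pi_pos]) pi_pos.le le_rfl
      (Filter.Eventually.of_forall fun x => abs_nonneg _) (hdc.abs.intervalIntegrable _ _)
    rw [h1, abs_one] at h2
    exact h2.trans h3
  have hA := h.one_le
  have hr := pow_pos (rr_pos k) n
  have hden : 0 < ∫ x in (-π)..π, p x * Wt a x :=
    integral_pos_of_ae (Wt_intervalIntegrable h) (Wt_nonneg h) (Wt_ae h) hcd.continuous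
      (fun θ => by simp only [hp, cos_add_two_pi]) hp0 hne
  have hden2 : ∫ x in (-π)..π, p x * Wt a x ≤ 2 * π * (2 * (∑' j, a j) * rr k ^ n) := by
    simp only [hp]
    rw [mu_apply h]
    refine mul_le_mul_of_nonneg_left ((mu_tq h k n).trans ?_) (by positivity)
    nlinarith
  have hsup : 1 / (2 * π * (2 * (∑' j, a j) * rr k ^ n)) ≤ sSup (ratios (Wt a) n) := by
    refine le_trans ?_ (le_csSup (bdd (isWeight h) (Wt_ae h) n) ⟨p, htrig, hp0, hne, rfl⟩)
    exact div_le_div₀ (by linarith) hnum hden hden2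
  have hk : (∫ θ in (-π)..π, Wt a θ) / 2 * sSup (ratios (Wt a) n) < kane (Wt a) n := by
    unfold kane
    push_cast
    exact Nat.lt_floor_add_one _
  rw [total h] at hk
  have h4 := mul_le_mul_of_nonneg_left hsup (show 0 ≤ 2 * π * (∑' j, a j) / 2 by positivity)
  have h5 : 2 * π * (∑' j, a j) / 2 * (1 / (2 * π * (2 * (∑' j, a j) * rr k ^ n))) =
      1 / (4 * rr k ^ n) := by
    field_simp
    ring
  have h6 : 1 / (4 * rr k ^ n) < kane (Wt a) n := by linarith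
  rw [div_lt_iff₀ (by positivity)] at h6
  linarith

theorem result : ∃ W : ℝ → ℝ, IsWeight W ∧ (∀ᵐ θ, W θ ≠ 0) ∧ (∀ n, BddAbove (ratios W n)) ∧
    ∀ c : ℝ, 0 < c → ∀ n₀ : ℕ, ∃ n, n₀ ≤ n ∧ (∃ N₀, ∀ N, N₀ ≤ N → HasQuad W n N) ∧
      (Nbar W n : ℝ) < c * kane W n := by
  obtain ⟨a, h, ha⟩ := exists_adm
  refine ⟨Wt a, isWeight h, Wt_ae h, bdd (isWeight h) (Wt_ae h), fun c hc n₀ => ?_⟩
  obtain ⟨k₀, hk₀⟩ := exists_nat_one_div_lt hc
  obtain ⟨n, B, h1, h2, h3, h4, h5⟩ := ha (max n₀ k₀)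
  set k := max n₀ k₀ with hk
  have hn : 1 ≤ n := by omega
  have hn1 : (1 : ℝ) ≤ n := by exact_mod_cast hn
  have hak := h.pos k
  have hak1 : a k ≤ 1 := h.zero ▸ h.anti (Nat.zero_le k)
  have hk0 : (0 : ℝ) ≤ k := Nat.cast_nonneg k
  have hpos : 1 ≤ (n : ℝ) ^ 2 * (k + 1) := by nlinarith
  have hQ : ∀ N, ⌈80 * (n : ℝ) ^ 2 * (k + 1) / a k⌉₊ ≤ N → HasQuad (Wt a) n N := by
    intro N hN
    have hN' : 80 * (n : ℝ) ^ 2 * (k + 1) ≤ N * a k := by
      rw [Nat.ceil_le, div_le_iff₀ hak] at hN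
      exact hN
    obtain ⟨Θ, t1, t2, t3⟩ := quad h k n N B hn h2 h3 hN'
    refine hasQuad_of h (Nat.pos_of_ne_zero ?_) Θ t1 t2 t3
    rintro rfl
    simp only [Nat.cast_zero, zero_mul] at hN'
    linarith
  refine ⟨n, by omega, ⟨_, hQ⟩, ?_⟩
  have e1 : (Nbar (Wt a) n : ℝ) ≤ ⌈80 * (n : ℝ) ^ 2 * (k + 1) / a k⌉₊ := by
    have : Nbar (Wt a) n ≤ ⌈80 * (n : ℝ) ^ 2 * (k + 1) / a k⌉₊ :=
      Nat.sInf_le (s := {N₀ | ∀ N, N₀ ≤ N → HasQuad (Wt a) n N}) hQ
    exact_mod_cast this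
  have e2 : (⌈80 * (n : ℝ) ^ 2 * (k + 1) / a k⌉₊ : ℝ) < 80 * (n : ℝ) ^ 2 * (k + 1) / a k + 1 :=
    Nat.ceil_lt_add_one (by positivity)
  have e3 : (Nbar (Wt a) n : ℝ) * a k ≤ 81 * ((n : ℝ) ^ 2 * (k + 1)) := by
    have := mul_le_mul_of_nonneg_right (e1.trans e2.le) hak.le
    rw [add_mul, div_mul_cancel₀ _ hak.ne'] at this
    linarith
  have e4 := kane_lower h k n hn h4
  have hr := pow_pos (rr_pos k) n
  have hK : (0 : ℝ) ≤ kane (Wt a) n := Nat.cast_nonneg _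
  have hNb : (0 : ℝ) ≤ Nbar (Wt a) n := Nat.cast_nonneg _
  have e5 : (Nbar (Wt a) n : ℝ) * (k + 1) * (4 * rr k ^ n) ≤ 1 := by
    refine le_of_mul_le_mul_right ?_ hak
    have := mul_le_mul_of_nonneg_right e3 (show (0 : ℝ) ≤ (k + 1) * (4 * rr k ^ n) by positivity)
    linarith
  have e6 : (Nbar (Wt a) n : ℝ) * (k + 1) < kane (Wt a) n := by
    refine lt_of_mul_lt_mul_right ?_ (show (0 : ℝ) ≤ 4 * rr k ^ n by positivity)
    linarith
  have e7 : 1 / ((k : ℝ) + 1) < c := by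
    refine lt_of_le_of_lt ?_ hk₀
    have : (k₀ : ℝ) ≤ k := by exact_mod_cast le_max_right n₀ k₀
    gcongr
  rw [div_lt_iff₀ (by positivity)] at e7
  refine lt_of_mul_lt_mul_right ?_ (show (0 : ℝ) ≤ k + 1 by positivity)
  nlinarith

end Pool.Agent.Results.MP_8220a0_an.KaneNotSharp
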